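import Mathlib

/-!
# MP_56ca39_gt: there are no l-universal or t-universal compacta of weight continuum

Both questions of Arhangel'skii are answered in the negative (in ZFC).
-/

universe u

namespace Pool.Agent.Results.MP_56ca39_gt.UniversalCompacta

open Cardinal TopologicalSpace Filter Topology

/-- The topology of pointwise convergence on the set `C(Z, ℝ)` of continuous real-valued
functions on `Z`; the resulting space is `C_p(Z)`. -/
abbrev pointwise (Z : Type u) [TopologicalSpace Z] : TopologicalSpace C(Z, ℝ) :=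
  TopologicalSpace.induced (fun (f : C(Z, ℝ)) (z : Z) => f z) Pi.topologicalSpace

/-- The subspace `Y` is t-embedded in `X`: there is a continuous extender
`φ : C_p(Y) → C_p(X)`. -/
def IsTEmbedded {X : Type u} [TopologicalSpace X] (Y : Set X) : Prop :=
  ∃ φ : C(Y, ℝ) → C(X, ℝ), @Continuous _ _ (pointwise Y) (pointwise X) φ ∧
    ∀ (f : C(Y, ℝ)) (y : Y), φ f (y : X) = f y

/-- The subspace `Y` is l-embedded in `X`: there is a continuous linear extender
`φ : C_p(Y) → C_p(X)`. -/
def IsLEmbedded {X : Type u} [TopologicalSpace X] (Y : Set X) : Prop :=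
  ∃ φ : C(Y, ℝ) → C(X, ℝ), @Continuous _ _ (pointwise Y) (pointwise X) φ ∧
    (∀ f g : C(Y, ℝ), φ (f + g) = φ f + φ g) ∧ (∀ (c : ℝ) (f : C(Y, ℝ)), φ (c • f) = c • φ f) ∧
    ∀ (f : C(Y, ℝ)) (y : Y), φ f (y : X) = f y

/-- `K` can be t-embedded in `X`: some t-embedded subspace of `X` is homeomorphic to `K`. -/
def CanTEmbed (K X : Type u) [TopologicalSpace K] [TopologicalSpace X] : Prop :=
  ∃ Y : Set X, Nonempty (K ≃ₜ Y) ∧ IsTEmbedded Y

/-- `K` can be l-embedded in `X`: some l-embedded subspace of `X` is homeomorphic to `K`. -/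
def CanLEmbed (K X : Type u) [TopologicalSpace K] [TopologicalSpace X] : Prop :=
  ∃ Y : Set X, Nonempty (K ≃ₜ Y) ∧ IsLEmbedded Y

/-- The weight of a space: the least cardinality of a base. -/
noncomputable def weight (X : Type u) [TopologicalSpace X] : Cardinal.{u} :=
  sInf {c | ∃ B : Set (Set X), IsTopologicalBasis B ∧ #B = c}

/-- There is a compact Hausdorff space `U` of weight `κ` such that every compact Hausdorff
space of weight at most `κ` can be l-embedded in `U`. -/
def HasLUniversal (κ : Cardinal.{u}) : Prop :=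
  ∃ (U : Type u) (_ : TopologicalSpace U), CompactSpace U ∧ T2Space U ∧ weight U = κ ∧
    ∀ (K : Type u) (_ : TopologicalSpace K), CompactSpace K → T2Space K → weight K ≤ κ →
      CanLEmbed K U

/-- There is a compact Hausdorff space `U` of weight `κ` such that every compact Hausdorff
space of weight at most `κ` can be t-embedded in `U`. -/
def HasTUniversal (κ : Cardinal.{u}) : Prop :=
  ∃ (U : Type u) (_ : TopologicalSpace U), CompactSpace U ∧ T2Space U ∧ weight U = κ ∧
    ∀ (K : Type u) (_ : TopologicalSpace K), CompactSpace K → T2Space K → weight K ≤ κ →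
      CanTEmbed K U

/-- `C_p(Z)` as a subspace of the product (only used in the proof). -/
def Cp (Z : Type u) [TopologicalSpace Z] : Submodule ℝ (Z → ℝ) where
  carrier := {f | Continuous f}
  add_mem' := fun hf hg => hf.add hg
  zero_mem' := (continuous_zero : Continuous (0 : Z → ℝ))
  smul_mem' := fun c _ hf => hf.const_smul c

/-! ### The number of continuous functions -/

lemma card_Cp_le (U : Type u) [TopologicalSpace U] [CompactSpace U] (B : Set (Set U))
    (hB : IsTopologicalBasis B) (hinf : ℵ₀ ≤ #B) : #(Cp U) ≤ #B ^ ℵ₀ := by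
  classical
  have key : ∀ (f : Cp U) (p : ℚ × ℚ), ∃ W : Finset B, p.1 < p.2 →
      {x | (p.2 : ℝ) ≤ (f : U → ℝ) x} ⊆ ⋃ b ∈ W, (b : Set U) ∧
      (⋃ b ∈ W, (b : Set U)) ⊆ {x | (p.1 : ℝ) < (f : U → ℝ) x} := by
    intro f p
    by_cases hp : p.1 < p.2
    · have hf : Continuous (f : U → ℝ) := f.2
      have hcomp : IsCompact {x | (p.2 : ℝ) ≤ (f : U → ℝ) x} :=
        (isClosed_le continuous_const hf).isCompact
      have hopen : IsOpen {x | (p.1 : ℝ) < (f : U → ℝ) x} := isOpen_lt continuous_const hf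
      have hx : ∀ x ∈ {x | (p.2 : ℝ) ≤ (f : U → ℝ) x}, ∃ b ∈ B, x ∈ b ∧
          b ⊆ {x | (p.1 : ℝ) < (f : U → ℝ) x} := by
        intro x hx
        have hx' : x ∈ {x | (p.1 : ℝ) < (f : U → ℝ) x} := by
          have : (p.1 : ℝ) < p.2 := by exact_mod_cast hp
          exact lt_of_lt_of_le this hx
        obtain ⟨b, hb, hxb, hbs⟩ := hB.exists_subset_of_mem_open hx' hopen
        exact ⟨b, hb, hxb, hbs⟩
      choose! b hbB hxb hbs using hx
      obtain ⟨t, ht, htc⟩ := hcomp.elim_nhds_subcover b
        (fun x hx => (hB.isOpen (hbB x hx)).mem_nhds (hxb x hx))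
      refine ⟨(t.attach).image (fun x : {x // x ∈ t} => (⟨b x, hbB x (ht x x.2)⟩ : B)), fun _ => ⟨?_, ?_⟩⟩
      · intro x hx
        obtain ⟨y, hy⟩ := Set.mem_iUnion.1 (htc hx)
        obtain ⟨hyt, hxy⟩ := Set.mem_iUnion.1 hy
        refine Set.mem_iUnion.2 ⟨⟨b y, hbB y (ht y hyt)⟩, Set.mem_iUnion.2 ⟨?_, hxy⟩⟩
        exact Finset.mem_image.2 ⟨⟨y, hyt⟩, Finset.mem_attach _ _, rfl⟩
      · intro x hx
        obtain ⟨c, hc⟩ := Set.mem_iUnion.1 hx
        obtain ⟨hcW, hxc⟩ := Set.mem_iUnion.1 hc
        obtain ⟨y, _, rfl⟩ := Finset.mem_image.1 hcW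
        exact hbs y (ht y y.2) hxc
    · exact ⟨∅, fun h => absurd h hp⟩
  choose W hW using key
  have hinj : Function.Injective W := by
    have hle : ∀ f g : Cp U, W f = W g → ∀ x, (f : U → ℝ) x ≤ (g : U → ℝ) x := by
      intro f g hfg x
      by_contra hlt
      push Not at hlt
      obtain ⟨p, hp1, hp2⟩ := exists_rat_btwn hlt
      obtain ⟨q, hq1, hq2⟩ := exists_rat_btwn hp2
      have hpq : p < q := by exact_mod_cast hq1
      have h1 := (hW f (p, q) hpq).1
      have h2 := (hW g (p, q) hpq).2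
      rw [hfg] at h1
      have := h2 (h1 (show (q : ℝ) ≤ (f : U → ℝ) x from hq2.le))
      have h3 : (p : ℝ) < (g : U → ℝ) x := this
      linarith
    intro f g hfg
    apply Subtype.ext
    funext x
    exact le_antisymm (hle f g hfg x) (hle g f hfg.symm x)
  have hcard : #(Cp U) ≤ #(ℚ × ℚ → Finset B) := mk_le_of_injective hinj
  refine hcard.trans ?_
  have : Infinite B := Cardinal.infinite_iff.2 hinf
  rw [mk_arrow, mk_finset_of_infinite]
  simp

/-! ### The spaces `K_A` -/

section Space

variable {α : Type u} (D : Set (ℕ → α))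

/-- The isolated points: the nodes of the tree and countably many extra points. -/
abbrev Node (α : Type u) : Type u := ℕ ⊕ List α

/-- The node of height `n` on the branch `b`. -/
def node (b : ℕ → α) (n : ℕ) : Node α := Sum.inr ((List.range n).map b)

lemma node_injective (b : ℕ → α) : Function.Injective (node b) := by
  intro m n h
  simp only [node, Sum.inr.injEq] at h
  have := congrArg List.length h
  simpa using this

lemma node_eq {b c : ℕ → α} {m n k : ℕ} (h : node b m = node c n) (hk : k < m) : b k = c k := by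
  simp only [node, Sum.inr.injEq] at h
  have hl := congrArg List.length h
  simp only [List.length_map, List.length_range] at hl
  subst hl
  have := congrArg (fun l => l[k]?) h
  simpa [List.getElem?_map, List.getElem?_range hk] using this

open Classical in
/-- The point of the cube corresponding to an isolated point. -/
noncomputable def ptT (A : Set D) (t : Node α) : Node α ⊕ D → Bool
  | Sum.inl s => decide (s = t)
  | Sum.inr c => decide (c ∈ A ∧ ∃ n, t = node (c : ℕ → α) n)

open Classical in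
/-- The point of the cube corresponding to a branch. -/
noncomputable def ptA (a : D) : Node α ⊕ D → Bool
  | Sum.inl _ => false
  | Sum.inr c => decide (c = a)

/-- The point at infinity. -/
def ptI : Node α ⊕ D → Bool := fun _ => false

/-- The compact space `K_A`, as a subset of a Cantor cube. -/
def KA (A : Set D) : Set (Node α ⊕ D → Bool) :=
  {x | (∃ t, x = ptT D A t) ∨ (∃ a ∈ A, x = ptA D a) ∨ x = ptI D}

lemma finite_common {a c : D} (h : a ≠ c) :
    {t : Node α | (∃ n, t = node (a : ℕ → α) n) ∧ ∃ n, t = node (c : ℕ → α) n}.Finite := by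
  have : ∃ k, (a : ℕ → α) k ≠ (c : ℕ → α) k := by
    by_contra hcon
    push Not at hcon
    exact h (Subtype.ext (funext hcon))
  obtain ⟨k, hk⟩ := this
  apply Set.Finite.subset (Set.Finite.image (node (a : ℕ → α)) (Set.finite_Iic k))
  rintro t ⟨⟨n, rfl⟩, ⟨m, hm⟩⟩
  refine ⟨n, ?_, rfl⟩
  by_contra hn
  simp only [Set.mem_Iic, not_le] at hn
  exact hk (node_eq hm hn)

lemma isOpen_coord (i : Node α ⊕ D) : IsOpen {x : Node α ⊕ D → Bool | x i = true} :=
  (isOpen_discrete ({true} : Set Bool)).preimage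
    (continuous_apply i : Continuous (fun x : Node α ⊕ D → Bool => x i))

lemma isClosed_KA (A : Set D) : IsClosed (KA D A) := by
  apply isClosed_of_closure_subset
  intro y hy
  by_cases h1 : ∃ t : Node α, y (Sum.inl t) = true
  · obtain ⟨t, ht⟩ := h1
    have hsub : {x : Node α ⊕ D → Bool | x (Sum.inl t) = true} ∩ KA D A ⊆ {ptT D A t} := by
      rintro x ⟨hx1, hx2⟩
      rcases hx2 with ⟨s, rfl⟩ | ⟨a, _, rfl⟩ | rfl
      · simp only [Set.mem_ofPred_eq, ptT, decide_eq_true_eq] at hx1
        rw [hx1]; rfl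
      · simp [ptA] at hx1
      · simp [ptI] at hx1
    have hy2 := (isOpen_coord D (Sum.inl t)).inter_closure ⟨ht, hy⟩
    have hy3 := closure_mono hsub hy2
    rw [closure_singleton] at hy3
    exact Or.inl ⟨t, hy3⟩
  · push Not at h1
    by_cases h2 : ∃ a : D, y (Sum.inr a) = true
    · obtain ⟨a, ha⟩ := h2
      have hy2 := (isOpen_coord D (Sum.inr a)).inter_closure ⟨ha, hy⟩
      have haA : a ∈ A := by
        by_contra haA
        have hsub : {x : Node α ⊕ D → Bool | x (Sum.inr a) = true} ∩ KA D A ⊆ ∅ := by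
          rintro x ⟨hx1, hx2⟩
          rcases hx2 with ⟨s, rfl⟩ | ⟨a', ha', rfl⟩ | rfl
          · simp only [Set.mem_ofPred_eq, ptT, decide_eq_true_eq] at hx1
            exact haA hx1.1
          · simp only [Set.mem_ofPred_eq, ptA, decide_eq_true_eq] at hx1
            exact haA (hx1 ▸ ha')
          · simp [ptI] at hx1
        have hy3 := closure_mono hsub hy2
        simp at hy3
      refine Or.inr (Or.inl ⟨a, haA, ?_⟩)
      funext i
      rcases i with s | c
      · have := h1 s
        simpa [ptA] using this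
      · by_cases hca : c = a
        · rw [hca, ha]; simp [ptA]
        · have hgoal : y (Sum.inr c) = false := by
            by_contra hc
            have hc' : y (Sum.inr c) = true := by simpa using hc
            have hy3 := ((isOpen_coord D (Sum.inr a)).inter
              (isOpen_coord D (Sum.inr c))).inter_closure ⟨⟨ha, hc'⟩, hy⟩
            have hsub : ({x : Node α ⊕ D → Bool | x (Sum.inr a) = true} ∩
                {x : Node α ⊕ D → Bool | x (Sum.inr c) = true}) ∩ KA D A ⊆
                (ptT D A) '' {t : Node α | (∃ n, t = node (a : ℕ → α) n) ∧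
                  ∃ n, t = node (c : ℕ → α) n} := by
              rintro x ⟨⟨hx1, hx1'⟩, hx2⟩
              rcases hx2 with ⟨s, rfl⟩ | ⟨a', ha', rfl⟩ | rfl
              · simp only [Set.mem_ofPred_eq, ptT, decide_eq_true_eq] at hx1 hx1'
                exact ⟨s, ⟨hx1.2, hx1'.2⟩, rfl⟩
              · simp only [Set.mem_ofPred_eq, ptA, decide_eq_true_eq] at hx1 hx1'
                exact absurd (hx1'.trans hx1.symm) hca
              · simp [ptI] at hx1
            have hfin := (finite_common D (Ne.symm hca)).image (ptT D A)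
            have hy4 := closure_mono hsub hy3
            rw [hfin.isClosed.closure_eq] at hy4
            obtain ⟨t, _, rfl⟩ := hy4
            have := h1 t
            simp [ptT] at this
          rw [hgoal]
          simp [ptA, hca]
    · push Not at h2
      refine Or.inr (Or.inr ?_)
      funext i
      rcases i with s | c
      · simpa [ptI] using h1 s
      · simpa [ptI] using h2 c

instance (A : Set D) : CompactSpace (KA D A) :=
  isCompact_iff_compactSpace.1 (isClosed_KA D A).isCompact

end Space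

section Points

variable {α : Type u} (D : Set (ℕ → α)) (A : Set D)

/-- The isolated point of `K_A` given by a node. -/
noncomputable def kT (t : Node α) : KA D A := ⟨ptT D A t, Or.inl ⟨t, rfl⟩⟩

/-- The point of `K_A` given by a branch in `A`. -/
noncomputable def kA (a : D) (ha : a ∈ A) : KA D A := ⟨ptA D a, Or.inr (Or.inl ⟨a, ha, rfl⟩)⟩

/-- The point at infinity of `K_A`. -/
def kI : KA D A := ⟨ptI D, Or.inr (Or.inr rfl)⟩

lemma kT_injective : Function.Injective (kT D A) := by
  intro s t h
  have h1 := congrArg (fun x : KA D A => (x : Node α ⊕ D → Bool) (Sum.inl s)) h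
  simpa [kT, ptT] using h1

lemma kA_injective {a b : D} (ha : a ∈ A) (hb : b ∈ A) (h : kA D A a ha = kA D A b hb) :
    a = b := by
  have h1 := congrArg (fun x : KA D A => (x : Node α ⊕ D → Bool) (Sum.inr a)) h
  simpa [kA, ptA] using h1

/-- The indicator function of a finite set of isolated points. -/
noncomputable def fF (F : Finset (Node α)) : Cp (KA D A) :=
  ⟨fun x => ∑ t ∈ F, (if (x : Node α ⊕ D → Bool) (Sum.inl t) = true then (1 : ℝ) else 0), by
    apply continuous_finsetSum
    intro t _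
    have h1 : Continuous (fun b : Bool => if b = true then (1 : ℝ) else 0) :=
      continuous_of_discreteTopology
    exact h1.comp ((continuous_apply (Sum.inl t)).comp continuous_subtype_val)⟩

/-- The indicator function of the branch `b` together with its limit. -/
noncomputable def gB (b : D) : Cp (KA D A) :=
  ⟨fun x => if (x : Node α ⊕ D → Bool) (Sum.inr b) = true then (1 : ℝ) else 0, by
    have h1 : Continuous (fun b : Bool => if b = true then (1 : ℝ) else 0) :=
      continuous_of_discreteTopology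
    exact h1.comp ((continuous_apply (Sum.inr b)).comp continuous_subtype_val)⟩

open Classical in
lemma fF_kT (F : Finset (Node α)) (t : Node α) :
    (fF D A F : KA D A → ℝ) (kT D A t) = if t ∈ F then 1 else 0 := by
  simp only [fF, kT, ptT, decide_eq_true_eq]
  rw [Finset.sum_ite_eq' F t (fun _ => (1 : ℝ))]

lemma fF_kA (F : Finset (Node α)) (a : D) (ha : a ∈ A) :
    (fF D A F : KA D A → ℝ) (kA D A a ha) = 0 := by
  simp [fF, kA, ptA]

lemma fF_kI (F : Finset (Node α)) : (fF D A F : KA D A → ℝ) (kI D A) = 0 := by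
  simp [fF, kI, ptI]

open Classical in
lemma gB_kT (b : D) (hb : b ∈ A) (t : Node α) :
    (gB D A b : KA D A → ℝ) (kT D A t) = if ∃ n, t = node (b : ℕ → α) n then 1 else 0 := by
  simp [gB, kT, ptT, hb]

open Classical in
lemma gB_kA (b a : D) (ha : a ∈ A) :
    (gB D A b : KA D A → ℝ) (kA D A a ha) = if b = a then 1 else 0 := by
  simp [gB, kA, ptA]

lemma gB_kI (b : D) : (gB D A b : KA D A → ℝ) (kI D A) = 0 := by
  simp [gB, kI, ptI]

/-- A branch outside `A` converges to infinity in `K_A`. -/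
lemma tendsto_node {b : D} (hb : b ∉ A) :
    Tendsto (fun n => kT D A (node (b : ℕ → α) n)) atTop (𝓝 (kI D A)) := by
  rw [tendsto_subtype_rng, tendsto_pi_nhds]
  intro i
  apply tendsto_nhds_of_eventually_eq
  rcases i with s | c
  · by_cases hs : ∃ n, s = node (b : ℕ → α) n
    · obtain ⟨n, rfl⟩ := hs
      filter_upwards [eventually_gt_atTop n] with m hm
      simp only [kT, ptT, kI, ptI, decide_eq_false_iff_not]
      intro h
      have := node_injective _ h
      omega
    · filter_upwards with m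
      simp only [kT, ptT, kI, ptI, decide_eq_false_iff_not]
      intro h
      exact hs ⟨m, h⟩
  · by_cases hc : c ∈ A
    · have hbc : b ≠ c := by
        rintro rfl
        exact hb hc
      have hfin := finite_common D hbc
      have hfin2 : {n : ℕ | ∃ m, node (b : ℕ → α) n = node (c : ℕ → α) m}.Finite := by
        apply Set.Finite.subset (hfin.preimage (node_injective (b : ℕ → α)).injOn)
        rintro n ⟨m, hm⟩
        exact ⟨⟨n, rfl⟩, ⟨m, hm⟩⟩
      obtain ⟨N, hN⟩ := hfin2.bddAbove
      filter_upwards [eventually_gt_atTop N] with m hm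
      simp only [kT, ptT, kI, ptI, decide_eq_false_iff_not]
      rintro ⟨_, k, hk⟩
      have := hN ⟨k, hk⟩
      omega
    · filter_upwards with m
      simp only [kT, ptT, kI, ptI, decide_eq_false_iff_not]
      rintro ⟨h, _⟩
      exact hc h

/-- The extra isolated points converge to infinity in `K_A`. -/
lemma tendsto_extra :
    Tendsto (fun n : ℕ => kT D A (Sum.inl n)) atTop (𝓝 (kI D A)) := by
  rw [tendsto_subtype_rng, tendsto_pi_nhds]
  intro i
  apply tendsto_nhds_of_eventually_eq
  rcases i with s | c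
  · rcases s with k | l
    · filter_upwards [eventually_gt_atTop k] with m hm
      simp only [kT, ptT, kI, ptI, decide_eq_false_iff_not, Sum.inl.injEq]
      omega
    · filter_upwards with m
      simp [kT, ptT, kI, ptI]
  · filter_upwards with m
    simp [kT, ptT, kI, ptI, node]

end Points

/-! ### The key lemma -/

lemma exists_finite_support {K : Type u} [TopologicalSpace K] (Φ : Cp K → ℝ) (hΦ : Continuous Φ)
    (g : Cp K) {ε : ℝ} (hε : 0 < ε) :
    ∃ S : Finset K, ∀ y : Cp K, (∀ x ∈ S, (y : K → ℝ) x = (g : K → ℝ) x) →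
      |Φ y - Φ g| < ε := by
  have hopen : IsOpen {y : Cp K | |Φ y - Φ g| < ε} :=
    isOpen_lt ((hΦ.sub continuous_const).abs) continuous_const
  obtain ⟨O, hO, hOeq⟩ := isOpen_induced_iff.1 hopen
  have hg : (g : K → ℝ) ∈ O := by
    have : g ∈ (Subtype.val ⁻¹' O : Set (Cp K)) := by
      rw [hOeq]
      simpa using hε
    exact this
  obtain ⟨I, u, hu, hsub⟩ := isOpen_pi_iff.1 hO _ hg
  refine ⟨I, fun y hy => ?_⟩
  have hyO : (y : K → ℝ) ∈ O := by
    apply hsub
    intro x hx
    rw [hy x hx]
    exact (hu x hx).2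
  have : y ∈ (Subtype.val ⁻¹' O : Set (Cp K)) := hyO
  rw [hOeq] at this
  exact this

lemma exists_data {K U : Type u} [TopologicalSpace K] [TopologicalSpace U]
    (h : CanTEmbed K U) :
    ∃ i : K → U, Continuous i ∧ ∃ φ : Cp K → Cp U, Continuous φ ∧
      ∀ (f : Cp K) (x : K), (φ f : U → ℝ) (i x) = (f : K → ℝ) x := by
  obtain ⟨Y, ⟨e⟩, ψ, hψ, hext⟩ := h
  let j : Cp K → C(Y, ℝ) := fun f => ⟨fun y => (f : K → ℝ) (e.symm y),
    Continuous.comp (show Continuous (f : K → ℝ) from f.2) e.symm.continuous⟩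
  have hj : @Continuous _ _ inferInstance (pointwise Y) j := by
    apply continuous_induced_rng.2
    apply continuous_pi
    intro y
    exact (continuous_apply (e.symm y)).comp continuous_subtype_val
  have hU : ∀ x : U, @Continuous _ _ (pointwise U) inferInstance (fun g : C(U, ℝ) => g x) := by
    intro x
    exact @Continuous.comp C(U, ℝ) (U → ℝ) ℝ (pointwise U) _ _ (fun g z => g z) (fun h => h x)
      (continuous_apply x) continuous_induced_dom
  refine ⟨fun x => (e x : U), continuous_subtype_val.comp e.continuous,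
    fun f => ⟨fun x => ψ (j f) x, (ψ (j f)).continuous⟩, ?_, ?_⟩
  · apply Continuous.subtype_mk
    apply continuous_pi
    intro x
    have h1 : @Continuous _ _ (pointwise Y) _ (fun g : C(Y, ℝ) => ψ g x) :=
      @Continuous.comp _ _ _ (pointwise Y) (pointwise U) _ ψ (fun g : C(U, ℝ) => g x) (hU x) hψ
    exact @Continuous.comp _ _ _ _ (pointwise Y) _ j (fun g : C(Y, ℝ) => ψ g x) h1 hj
  · intro f x
    have := hext (j f) (e x)
    simpa [j] using this

section Key

variable {α : Type u} (D : Set (ℕ → α))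

lemma key {U : Type u} [TopologicalSpace U] (A A' : Set D)
    (i' : KA D A' → U) (hi' : Continuous i')
    (φ : Cp (KA D A) → Cp U) (hφ : Continuous φ)
    (φ' : Cp (KA D A') → Cp U)
    (hext : ∀ (f : Cp (KA D A')) (x : KA D A'), (φ' f : U → ℝ) (i' x) = (f : KA D A' → ℝ) x)
    (heq : ∀ F : Finset (Node α), φ (fF D A F) = φ' (fF D A' F)) :
    ∃ S : Node α × Finset (Node α) → Finset (KA D A), ∀ b (hb : b ∈ A), b ∉ A' →
      ∃ p, kA D A b hb ∈ S p := by
  classical
  have hΦ : ∀ t : Node α, Continuous (fun y : Cp (KA D A) => (φ y : U → ℝ) (i' (kT D A' t))) :=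
    fun t => (continuous_apply _).comp (continuous_subtype_val.comp hφ)
  have h8 : (0 : ℝ) < 1 / 8 := by norm_num
  choose S hS using fun p : Node α × Finset (Node α) =>
    exists_finite_support _ (hΦ p.1) (fF D A p.2) h8
  refine ⟨S, fun b hb hb' => ?_⟩
  by_contra hcon
  push Not at hcon
  -- the values of the extension of `gB b`
  have hval : ∀ t : Node α, |(φ (gB D A b) : U → ℝ) (i' (kT D A' t)) -
      (if ∃ n, t = node (b : ℕ → α) n then 1 else 0)| < 1 / 4 := by
    intro t
    obtain ⟨G, hG⟩ := exists_finite_support _ (hΦ t) (gB D A b) h8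
    -- a bound for the heights of the nodes in `G` and of `t`
    have hfin : {n : ℕ | kT D A (node (b : ℕ → α) n) ∈ G ∨ t = node (b : ℕ → α) n}.Finite := by
      apply Set.Finite.union
      · exact (G.finite_toSet.preimage
          ((kT_injective D A).comp (node_injective (b : ℕ → α))).injOn)
      · apply Set.Finite.subset ((Set.finite_singleton t).preimage
          (node_injective (b : ℕ → α)).injOn)
        intro n hn
        exact hn.symm
    obtain ⟨N, hN⟩ := hfin.bddAbove
    let F : Finset (Node α) := (Finset.range (N + 1)).image (node (b : ℕ → α))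
    have hF : ∀ n, node (b : ℕ → α) n ∈ F ↔ n ≤ N := by
      intro n
      simp only [F, Finset.mem_image, Finset.mem_range]
      constructor
      · rintro ⟨m, hm, hmn⟩
        have := node_injective _ hmn
        omega
      · intro h
        exact ⟨n, by omega, rfl⟩
    have hF' : ∀ s ∈ F, ∃ n, s = node (b : ℕ → α) n := by
      intro s hs
      simp only [F, Finset.mem_image] at hs
      obtain ⟨m, _, rfl⟩ := hs
      exact ⟨m, rfl⟩
    -- the finitely many nodes to be removed
    have hRfin : {s : Node α | kT D A s ∈ S (t, F) ∧ (∃ n, s = node (b : ℕ → α) n) ∧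
        s ∉ F}.Finite := by
      apply Set.Finite.subset ((S (t, F)).finite_toSet.preimage (kT_injective D A).injOn)
      rintro s ⟨hs, _⟩
      exact hs
    let R : Finset (Node α) := hRfin.toFinset
    have hR : ∀ s, s ∈ R ↔ (kT D A s ∈ S (t, F) ∧ (∃ n, s = node (b : ℕ → α) n) ∧
        s ∉ F) := by
      intro s
      simp [R]
    let y : Cp (KA D A) := gB D A b - fF D A R
    have hy : ∀ x : KA D A, (y : KA D A → ℝ) x =
        (gB D A b : KA D A → ℝ) x - (fF D A R : KA D A → ℝ) x := fun x => rfl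
    have hcases : ∀ x : KA D A, (∃ s, x = kT D A s) ∨ (∃ a, ∃ ha : a ∈ A, x = kA D A a ha) ∨
        x = kI D A := by
      rintro ⟨x, ⟨s, rfl⟩ | ⟨a, ha, rfl⟩ | rfl⟩
      · exact Or.inl ⟨s, rfl⟩
      · exact Or.inr (Or.inl ⟨a, ha, rfl⟩)
      · exact Or.inr (Or.inr rfl)
    have h1 : ∀ x ∈ S (t, F), (y : KA D A → ℝ) x = (fF D A F : KA D A → ℝ) x := by
      intro x hx
      rw [hy]
      rcases hcases x with ⟨s, rfl⟩ | ⟨a, ha, rfl⟩ | rfl
      · rw [gB_kT D A b hb, fF_kT, fF_kT]
        by_cases hs : ∃ n, s = node (b : ℕ → α) n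
        · by_cases hsF : s ∈ F
          · have hsR : s ∉ R := by
              rw [hR]
              rintro ⟨_, _, h⟩
              exact h hsF
            rw [if_pos hs, if_pos hsF, if_neg hsR]
            norm_num
          · have hsR : s ∈ R := by
              rw [hR]
              exact ⟨hx, hs, hsF⟩
            rw [if_pos hs, if_neg hsF, if_pos hsR]
            norm_num
        · have hsF : s ∉ F := fun h => hs (hF' s h)
          have hsR : s ∉ R := by
            rw [hR]
            rintro ⟨_, h, _⟩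
            exact hs h
          rw [if_neg hs, if_neg hsF, if_neg hsR]
          norm_num
      · rw [gB_kA, fF_kA, fF_kA]
        have hba : b ≠ a := by
          rintro rfl
          exact hcon (t, F) hx
        rw [if_neg hba]
        norm_num
      · rw [gB_kI, fF_kI, fF_kI]
        norm_num
    have h2 : ∀ x ∈ G, (y : KA D A → ℝ) x = (gB D A b : KA D A → ℝ) x := by
      intro x hx
      rw [hy]
      have : (fF D A R : KA D A → ℝ) x = 0 := by
        rcases hcases x with ⟨s, rfl⟩ | ⟨a, ha, rfl⟩ | rfl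
        · rw [fF_kT, if_neg]
          rw [hR]
          rintro ⟨_, ⟨n, rfl⟩, h⟩
          apply h
          rw [hF]
          exact hN (Or.inl hx)
        · exact fF_kA D A R a ha
        · exact fF_kI D A R
      rw [this, sub_zero]
    have h3 := hS (t, F) y h1
    have h4 := hG y h2
    have h5 : (φ (fF D A F) : U → ℝ) (i' (kT D A' t)) =
        if ∃ n, t = node (b : ℕ → α) n then 1 else 0 := by
      rw [heq, hext, fF_kT]
      by_cases ht : ∃ n, t = node (b : ℕ → α) n
      · obtain ⟨n, rfl⟩ := ht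
        have : n ≤ N := hN (Or.inr rfl)
        rw [if_pos ((hF n).2 this), if_pos ⟨n, rfl⟩]
      · rw [if_neg ht, if_neg (fun h => ht (hF' t h))]
    simp only at h3 h4
    rw [h5] at h3
    rw [abs_lt] at h3 h4 ⊢
    constructor <;> linarith [h3.1, h3.2, h4.1, h4.2]
  -- the two limits
  have hcont : Continuous (φ (gB D A b) : U → ℝ) := (φ (gB D A b)).2
  have hlim1 := (hcont.tendsto _).comp ((hi'.tendsto _).comp (tendsto_node D A' hb'))
  have hlim2 := (hcont.tendsto _).comp ((hi'.tendsto _).comp (tendsto_extra D A'))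
  have hge : (3 / 4 : ℝ) ≤ (φ (gB D A b) : U → ℝ) (i' (kI D A')) := by
    apply ge_of_tendsto' hlim1
    intro n
    have := hval (node (b : ℕ → α) n)
    rw [if_pos ⟨n, rfl⟩, abs_lt] at this
    simp only [Function.comp]
    linarith [this.1]
  have hle : (φ (gB D A b) : U → ℝ) (i' (kI D A')) ≤ (1 / 4 : ℝ) := by
    apply le_of_tendsto' hlim2
    intro n
    have := hval (Sum.inl n)
    rw [if_neg (by simp [node]), abs_lt] at this
    simp only [Function.comp]
    linarith [this.2]
  linarith

end Key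

/-! ### The weight of `K_A` -/

section Weight

variable {α : Type u} (D : Set (ℕ → α)) (A : Set D)

lemma isTopologicalBasis_KA :
    IsTopologicalBasis (Set.range (fun l : Finset ((Node α ⊕ D) × Bool) =>
      {x : KA D A | ∀ p ∈ l, (x : Node α ⊕ D → Bool) p.1 = p.2})) := by
  classical
  apply isTopologicalBasis_of_isOpen_of_nhds
  · rintro _ ⟨l, rfl⟩
    have : {x : KA D A | ∀ p ∈ l, (x : Node α ⊕ D → Bool) p.1 = p.2} =
        ⋂ p ∈ l, {x : KA D A | (x : Node α ⊕ D → Bool) p.1 = p.2} := by
      ext x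
      simp
    simp only
    rw [this]
    apply isOpen_biInter_finset
    intro p _
    have h : Continuous (fun x : KA D A => (x : Node α ⊕ D → Bool) p.1) :=
      (continuous_apply p.1).comp continuous_subtype_val
    exact (isOpen_discrete ({p.2} : Set Bool)).preimage h
  · intro a u ha hu
    obtain ⟨O, hO, rfl⟩ := isOpen_induced_iff.1 hu
    obtain ⟨I, v, hv, hsub⟩ := isOpen_pi_iff.1 hO _ ha
    refine ⟨_, ⟨I.image (fun i => (i, (a : Node α ⊕ D → Bool) i)), rfl⟩, ?_, ?_⟩
    · intro p hp
      obtain ⟨i, _, rfl⟩ := Finset.mem_image.1 hp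
      rfl
    · intro x hx
      apply hsub
      intro i hi
      have := hx (i, (a : Node α ⊕ D → Bool) i) (Finset.mem_image.2 ⟨i, hi, rfl⟩)
      simp only at this
      rw [this]
      exact (hv i hi).2

lemma weight_KA_le {κ : Cardinal.{u}} (hκ : ℵ₀ ≤ κ) (hT : #(Node α) ≤ κ) (hD : #D ≤ κ) :
    weight (KA D A) ≤ κ := by
  have h1 : weight (KA D A) ≤ #(Set.range (fun l : Finset ((Node α ⊕ D) × Bool) =>
      {x : KA D A | ∀ p ∈ l, (x : Node α ⊕ D → Bool) p.1 = p.2})) :=
    csInf_le' ⟨_, isTopologicalBasis_KA D A, rfl⟩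
  refine h1.trans (mk_range_le.trans ?_)
  have : Infinite ((Node α ⊕ D) × Bool) := by
    have : Infinite (Node α ⊕ D) := Sum.infinite_of_left
    exact Prod.infinite_of_left
  rw [mk_finset_of_infinite, mk_prod, mk_sum]
  simp only [lift_id, lift_uzero]
  calc (#(Node α) + #D) * lift.{u} #Bool ≤ (κ + κ) * κ := by
        gcongr
        rw [mk_bool, lift_ofNat]
        exact (natCast_lt_aleph0 (n := 2)).le.trans hκ
    _ = κ := by rw [add_eq_self hκ, mul_eq_self hκ]

end Weight

lemma HasLUniversal.hasTUniversal {κ : Cardinal.{u}} (h : HasLUniversal κ) :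
    HasTUniversal κ := by
  obtain ⟨U, tU, h1, h2, h3, h4⟩ := h
  refine ⟨U, tU, h1, h2, h3, fun K tK hc ht hw => ?_⟩
  obtain ⟨Y, e, φ, hφ, _, _, hext⟩ := h4 K tK hc ht hw
  exact ⟨Y, e, φ, hφ, hext⟩

theorem not_hasTUniversal {μ κ : Cardinal.{u}} (hμ : ℵ₀ ≤ μ) (h1 : μ ≤ κ) (h2 : κ ≤ μ ^ ℵ₀)
    (h3 : (2 : Cardinal.{u}) ^ μ < 2 ^ κ) : ¬ HasTUniversal κ := by
  classical
  rintro ⟨U, tU, hcU, hT2, hw, hall⟩
  have hκ : ℵ₀ ≤ κ := hμ.trans h1
  obtain ⟨α, rfl⟩ : ∃ α : Type u, #α = μ := ⟨μ.out, mk_out μ⟩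
  have hinf : Infinite α := Cardinal.infinite_iff.2 hμ
  have hcardN : #(ℕ → α) = #α ^ ℵ₀ := by simp
  obtain ⟨D, hD⟩ := le_mk_iff_exists_set.1 (h2.trans_eq hcardN.symm)
  have hNode : #(Node α) = #α := by
    rw [mk_sum, mk_list_eq_mk]
    simp only [lift_uzero, mk_nat, lift_aleph0]
    exact add_eq_right hμ hμ
  have : Infinite (Node α) := Sum.infinite_of_left
  obtain ⟨B, hB, hBcard⟩ : ∃ B : Set (Set U), IsTopologicalBasis B ∧ #B = κ := by
    have hne : {c | ∃ B : Set (Set U), IsTopologicalBasis B ∧ #B = c}.Nonempty :=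
      ⟨_, _, isTopologicalBasis_opens, rfl⟩
    have := csInf_mem hne
    rw [show sInf {c | ∃ B : Set (Set U), IsTopologicalBasis B ∧ #B = c} = κ from hw] at this
    exact this
  have hdata := fun A : Set D => exists_data (hall (KA D A) _ inferInstance inferInstance
    (weight_KA_le D A hκ (hNode.le.trans h1) hD.le))
  choose i hi φ hφ hext using hdata
  -- the class of a set of branches
  let cl : Set D → (Finset (Node α) → Cp U) := fun A F => φ A (fF D A F)
  have hdiff : ∀ A A' : Set D, cl A = cl A' → #↥(A \ A') ≤ #α := by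
    intro A A' hAA
    obtain ⟨S, hS⟩ := key D A A' (i A') (hi A') (φ A) (hφ A) (φ A') (hext A')
      (fun F => congrFun hAA F)
    have hS' : ∀ x : ↥(A \ A'), ∃ p, kA D A x.1 x.2.1 ∈ S p := fun x => hS x.1 x.2.1 x.2.2
    choose p hp using hS'
    let j : ↥(A \ A') → Σ q : Node α × Finset (Node α), S q :=
      fun x => ⟨p x, ⟨kA D A x.1 x.2.1, hp x⟩⟩
    have hj : Function.Injective j := by
      intro x y hxy
      have h1 : (j x).2.1 = (j y).2.1 := by rw [hxy]
      exact Subtype.ext (kA_injective D A x.2.1 y.2.1 h1)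
    have hle := mk_le_of_injective hj
    refine hle.trans ?_
    rw [mk_sigma]
    calc Cardinal.sum (fun q : Node α × Finset (Node α) => #(S q))
        ≤ Cardinal.sum (fun _ : Node α × Finset (Node α) => (ℵ₀ : Cardinal.{u})) :=
          sum_le_sum _ _ (fun q => (mk_le_aleph0))
      _ = #(Node α × Finset (Node α)) * ℵ₀ := sum_const' _ _
      _ = #α := by
          rw [mk_prod, mk_finset_of_infinite, lift_id, hNode, mul_eq_self hμ]
          exact mul_aleph0_eq hμ
  let r : (Finset (Node α) → Cp U) → Set D := fun c =>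
    if h : ∃ A, cl A = c then h.choose else ∅
  have hr : ∀ A, cl (r (cl A)) = cl A := by
    intro A
    have h : ∃ A', cl A' = cl A := ⟨A, rfl⟩
    simp only [r, dif_pos h]
    exact h.choose_spec
  have hsd : ∀ A, #↥(symmDiff A (r (cl A))) ≤ #α := by
    intro A
    rw [Set.symmDiff_def]
    calc #↥(A \ r (cl A) ∪ r (cl A) \ A) ≤ #↥(A \ r (cl A)) + #↥(r (cl A) \ A) :=
          mk_union_le _ _
      _ ≤ #α + #α := add_le_add (hdiff _ _ (hr A).symm) (hdiff _ _ (hr A))
      _ = #α := add_eq_self hμ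
  let J : Set D → (Finset (Node α) → Cp U) × {S : Set D // #S ≤ #α} :=
    fun A => (cl A, ⟨symmDiff A (r (cl A)), hsd A⟩)
  have hJ : Function.Injective J := by
    intro A A' hAA
    simp only [J, Prod.mk.injEq, Subtype.mk.injEq] at hAA
    obtain ⟨hc, hs⟩ := hAA
    rw [hc] at hs
    exact symmDiff_left_injective _ hs
  have hle := mk_le_of_injective hJ
  rw [mk_set, hD, mk_prod, lift_id, lift_id] at hle
  have hpow : ((2 : Cardinal.{u}) ^ #α) ^ ℵ₀ = 2 ^ #α := by
    rw [← power_mul, mul_aleph0_eq hμ]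
  have hpow2 : ((2 : Cardinal.{u}) ^ #α) ^ #α = 2 ^ #α := by
    rw [← power_mul, mul_eq_self hμ]
  have hκ2 : κ ≤ 2 ^ #α := by
    calc κ ≤ #α ^ ℵ₀ := h2
      _ ≤ (2 ^ #α) ^ ℵ₀ := power_le_power_right (cantor _).le
      _ = 2 ^ #α := hpow
  have hb1 : #(Finset (Node α) → Cp U) ≤ 2 ^ #α := by
    rw [mk_arrow, lift_id, lift_id, mk_finset_of_infinite, hNode]
    calc #(Cp U) ^ #α ≤ (κ ^ ℵ₀) ^ #α := by
          apply power_le_power_right
          have := card_Cp_le U B hB (by rw [hBcard]; exact hκ)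
          rwa [hBcard] at this
      _ ≤ ((2 ^ #α) ^ ℵ₀) ^ #α := power_le_power_right (power_le_power_right hκ2)
      _ = 2 ^ #α := by rw [hpow, hpow2]
  have hb2 : #{S : Set D // #S ≤ #α} ≤ 2 ^ #α := by
    calc #{S : Set D // #S ≤ #α} ≤ max #D ℵ₀ ^ #α := mk_bounded_set_le _ _
      _ = κ ^ #α := by rw [hD, max_eq_left hκ]
      _ ≤ (2 ^ #α) ^ #α := power_le_power_right hκ2
      _ = 2 ^ #α := hpow2
  have hfin : (2 : Cardinal.{u}) ^ κ ≤ 2 ^ #α := by
    calc (2 : Cardinal.{u}) ^ κ ≤ _ := hle
      _ ≤ 2 ^ #α * 2 ^ #α := mul_le_mul' hb1 hb2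
      _ = 2 ^ #α := mul_eq_self (hμ.trans (cantor _).le)
  exact absurd h3 (not_lt.2 hfin)

theorem not_hasTUniversal_continuum : ¬ HasTUniversal.{u} 𝔠 := by
  apply not_hasTUniversal (μ := ℵ₀) le_rfl aleph0_le_continuum
  · rw [aleph0_power_aleph0]
  · rw [two_power_aleph0]
    exact cantor _

/-- The iterated exponentials. -/
noncomputable def tower (ν : Cardinal.{u}) : ℕ → Cardinal.{u}
  | 0 => max ν ℵ₀
  | n + 1 => 2 ^ tower ν n

theorem exists_large (ν : Cardinal.{u}) :
    ∃ κ : Cardinal.{u}, ν ≤ κ ∧ ¬ HasTUniversal κ := by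
  let μ : Cardinal.{u} := Cardinal.sum (tower ν)
  have hle : ∀ n, tower ν n ≤ μ := fun n => le_sum (tower ν) n
  have hμ : ℵ₀ ≤ μ := (le_max_right ν ℵ₀).trans (hle 0)
  have hν : ν ≤ μ := (le_max_left ν ℵ₀).trans (hle 0)
  have h2 : (2 : Cardinal.{u}) ^ μ ≤ μ ^ ℵ₀ := by
    calc (2 : Cardinal.{u}) ^ μ = Cardinal.prod (fun n => 2 ^ tower ν n) := power_sum _ _
      _ ≤ Cardinal.prod (fun _ : ℕ => μ) := prod_le_prod _ _ (fun n => hle (n + 1))
      _ = μ ^ ℵ₀ := by simp
  refine ⟨μ ^ ℵ₀, hν.trans (self_le_power μ (by simp)), ?_⟩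
  apply not_hasTUniversal hμ (self_le_power μ (by simp)) le_rfl
  exact lt_of_le_of_lt h2 (cantor _)

/-- Both questions have a negative answer. -/
theorem result :
    (¬ ∀ κ : Cardinal.{u}, ℵ₀ ≤ κ → HasLUniversal κ) ∧
    (¬ ∀ κ : Cardinal.{u}, ℵ₀ ≤ κ → HasTUniversal κ) ∧
    (¬ HasLUniversal.{u} 𝔠 ∧ ¬ HasTUniversal.{u} 𝔠) ∧
    (∀ ν : Cardinal.{u}, ∃ κ, ν ≤ κ ∧ ¬ HasLUniversal κ ∧ ¬ HasTUniversal κ) ∧
    (∀ μ κ : Cardinal.{u}, ℵ₀ ≤ μ → μ ≤ κ → κ ≤ μ ^ ℵ₀ → (2 : Cardinal.{u}) ^ μ < 2 ^ κ →
      ¬ HasLUniversal κ ∧ ¬ HasTUniversal κ) := by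
  have hc := not_hasTUniversal_continuum.{u}
  refine ⟨fun h => hc (h 𝔠 aleph0_le_continuum).hasTUniversal,
    fun h => hc (h 𝔠 aleph0_le_continuum),
    ⟨fun h => hc h.hasTUniversal, hc⟩, ?_, ?_⟩
  · intro ν
    obtain ⟨κ, h1, h2⟩ := exists_large ν
    exact ⟨κ, h1, fun h => h2 h.hasTUniversal, h2⟩
  · intro μ κ h1 h2 h3 h4
    have h5 := not_hasTUniversal h1 h2 h3 h4
    exact ⟨fun h => h5 h.hasTUniversal, h5⟩

end Pool.Agent.Results.MP_56ca39_gt.UniversalCompacta
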